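import Pool.Agent.Q293.HF.Stm

/-!
# Sections of the line bundles of degree 3 separate points and tangents

`sep`: products of three theta functions.
-/

set_option autoImplicit false

open Topology Filter

namespace Pool.Agent.Q259.HF.SEP

open Pool.Agent.Q293.HF Pool.Agent.Helper922.HB

/-- the product of three theta functions -/
noncomputable def ps (θ : ℂ → ℂ) (a b d : ℂ) (z : ℂ) : ℂ :=
  if z = 0 then 0 else θ (z / a) * θ (z / b) * θ (z / d)

lemma diff_one {θ : ℂ → ℂ} (hθ : DifferentiableOn ℂ θ {0}ᶜ) {a z : ℂ} (ha : a ≠ 0) (hz : z ≠ 0) :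
    DifferentiableAt ℂ (fun w => θ (w / a)) z := by
  have h1 : DifferentiableAt ℂ θ (z / a) :=
    hθ.differentiableAt (isOpen_compl_singleton.mem_nhds (by simpa using div_ne_zero hz ha))
  exact DifferentiableAt.comp (f := fun w : ℂ => w / a) z h1 (differentiableAt_id.div_const a)

lemma ps_ev (θ : ℂ → ℂ) (a b d : ℂ) {z : ℂ} (hz : z ≠ 0) :
    ps θ a b d =ᶠ[𝓝 z] fun w => θ (w / a) * θ (w / b) * θ (w / d) := by
  filter_upwards [isOpen_compl_singleton.mem_nhds (show z ∈ ({0} : Set ℂ)ᶜ by simpa using hz)] with w hw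
  have hw : w ≠ 0 := by simpa using hw
  simp [ps, hw]

lemma ps_mem {θ : ℂ → ℂ} (hθ : DifferentiableOn ℂ θ {0}ᶜ) (hm : ∀ z, z ≠ 0 → θ (z / 2) = -z⁻¹ * θ z)
    {a b d : ℂ} (ha : a ≠ 0) (hb : b ≠ 0) (hd : d ≠ 0) : ps θ a b d ∈ VV (-(a * b * d)) := by
  refine ⟨?_, ?_, ?_⟩
  · intro z hz
    have hz : z ≠ 0 := by simpa using hz
    refine DifferentiableAt.differentiableWithinAt ?_
    refine DifferentiableAt.congr_of_eventuallyEq ?_ (ps_ev θ a b d hz)
    exact ((diff_one hθ ha hz).mul (diff_one hθ hb hz)).mul (diff_one hθ hd hz)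
  · intro z hz
    have e : ∀ x : ℂ, x ≠ 0 → θ (z / 2 / x) = -(x * z⁻¹) * θ (z / x) := by
      intro x hx
      rw [show z / 2 / x = z / x / 2 by ring, hm _ (div_ne_zero hz hx), inv_div, div_eq_mul_inv]
    have h2 : z / 2 ≠ 0 := div_ne_zero hz two_ne_zero
    simp only [ps, hz, h2, if_false]
    rw [e a ha, e b hb, e d hd]
    ring
  · simp [ps]

/-- a number off a countable set -/
lemma exists_off {S : Set ℂ} (hS : S.Countable) : ∃ b, b ∉ S := by
  obtain ⟨b, hb⟩ := (hS.dense_compl ℂ).nonempty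
  exact ⟨b, hb⟩

lemma pick {θ : ℂ → ℂ} (hz0 : ∀ z, z ≠ 0 → (θ z = 0 ↔ ∃ k : ℤ, z = 2 ^ k)) {a c z : ℂ} (ha : a ≠ 0) (hc : c ≠ 0)
    (hz : z ≠ 0) : ∃ b d : ℂ, b ≠ 0 ∧ d ≠ 0 ∧ -(a * b * d) = c ∧ θ (z / b) ≠ 0 ∧ θ (z / d) ≠ 0 := by
  have hS : (({0} : Set ℂ) ∪ Set.range (fun k : ℤ => z / (2 : ℂ) ^ k) ∪
      Set.range fun k : ℤ => -(2 : ℂ) ^ k * c / (z * a)).Countable :=
    ((Set.countable_singleton 0).union (Set.countable_range _)).union (Set.countable_range _)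
  obtain ⟨b, hb⟩ := exists_off hS
  simp only [Set.mem_union, Set.mem_singleton_iff, Set.mem_range, not_or, not_exists] at hb
  obtain ⟨⟨hb0, hb1⟩, hb2⟩ := hb
  have hd0 : -c / (a * b) ≠ 0 := div_ne_zero (neg_ne_zero.mpr hc) (mul_ne_zero ha hb0)
  refine ⟨b, -c / (a * b), hb0, hd0, ?_, ?_, ?_⟩
  · field_simp
  · rw [Ne, hz0 _ (div_ne_zero hz hb0)]
    rintro ⟨k, hk⟩
    apply hb1 k
    rw [← hk]
    field_simp
  · rw [Ne, hz0 _ (div_ne_zero hz hd0)]
    rintro ⟨k, hk⟩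
    apply hb2 k
    rw [← hk]
    field_simp

theorem sep (h : S_THETA) : S_SEP := by
  obtain ⟨θ, hθ, hm, hz0, h1⟩ := h
  have hone : θ 1 = 0 := (hz0 1 one_ne_zero).2 ⟨0, by simp⟩
  intro c hc
  have key : ∀ a z : ℂ, a ≠ 0 → z ≠ 0 → ∃ b d : ℂ, b ≠ 0 ∧ d ≠ 0 ∧ ps θ a b d ∈ VV c ∧
      θ (z / b) ≠ 0 ∧ θ (z / d) ≠ 0 := by
    intro a z ha hz
    obtain ⟨b, d, hb, hd, hc', h2, h3⟩ := pick hz0 ha hc hz
    refine ⟨b, d, hb, hd, ?_, h2, h3⟩
    rw [← hc']
    exact ps_mem hθ hm ha hb hd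
  refine ⟨?_, ?_, ?_⟩
  · intro z hz
    obtain ⟨a, ha⟩ := exists_off (((Set.countable_singleton (0 : ℂ))).union
      (Set.countable_range fun k : ℤ => z / (2 : ℂ) ^ k))
    simp only [Set.mem_union, Set.mem_singleton_iff, Set.mem_range, not_or, not_exists] at ha
    obtain ⟨ha0, ha1⟩ := ha
    obtain ⟨b, d, hb, hd, hV, h2, h3⟩ := key a z ha0 hz
    refine ⟨_, hV, ?_⟩
    simp only [ps, hz, if_false]
    refine mul_ne_zero (mul_ne_zero ?_ h2) h3
    rw [Ne, hz0 _ (div_ne_zero hz ha0)]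
    rintro ⟨k, hk⟩
    apply ha1 k
    rw [← hk]
    field_simp
  · intro z z' hz hz' hn
    obtain ⟨b, d, hb, hd, hV, h2, h3⟩ := key z' z hz' hz
    refine ⟨_, hV, ?_, ?_⟩
    · simp only [ps, hz, if_false]
      refine mul_ne_zero (mul_ne_zero ?_ h2) h3
      rw [Ne, hz0 _ (div_ne_zero hz hz')]
      rintro ⟨k, hk⟩
      apply hn
      refine ⟨-k, ?_⟩
      rw [zpow_neg, ← hk]
      field_simp
    · simp only [ps, hz', if_false, div_self hz', hone, zero_mul]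
  · intro z hz
    obtain ⟨b, d, hb, hd, hV, h2, h3⟩ := key z z hz hz
    refine ⟨_, hV, ?_, ?_⟩
    · simp only [ps, hz, if_false, div_self hz, hone, zero_mul]
    · rw [(ps_ev θ z b d hz).deriv_eq]
      have d1 : HasDerivAt (fun w => θ (w / z)) (deriv θ 1 * (1 / z)) z := by
        have g1 : HasDerivAt θ (deriv θ 1) (z / z) := by
          rw [div_self hz]
          exact (hθ.differentiableAt (isOpen_compl_singleton.mem_nhds (by simp))).hasDerivAt
        exact HasDerivAt.comp (h := fun w : ℂ => w / z) z g1 ((hasDerivAt_id z).div_const z)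
      have d2 := (diff_one hθ hb hz).hasDerivAt
      have d3 := (diff_one hθ hd hz).hasDerivAt
      have d4 := (d1.mul d2).mul d3
      have e : deriv (fun w => θ (w / z) * θ (w / b) * θ (w / d)) z =
          deriv θ 1 * (1 / z) * θ (z / b) * θ (z / d) := by
        have := d4.deriv
        refine Eq.trans ?_ (this.trans ?_)
        · rfl
        · simp only [Pi.mul_apply, div_self hz, hone, zero_mul, add_zero]
      rw [e]
      exact mul_ne_zero (mul_ne_zero (mul_ne_zero h1 (one_div_ne_zero hz)) h2) h3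

end Pool.Agent.Q259.HF.SEP
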